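import Mathlib

set_option autoImplicit false

namespace Pool.Agent.H.MP_b62fd5_al

def IsQuasigroup {T : Type} (m : T → T → T) : Prop :=
  ∀ a b, (∃! x, m a x = b) ∧ ∃! y, m y a = b

def Isotopic {T S : Type} (m : T → T → T) (n : S → S → S) : Prop :=
  ∃ α β γ : T ≃ S, ∀ x y, γ (m x y) = n (α x) (β y)

def Cells {T : Type} (m : T → T → T) : Set (Fin 3 → T) := {c | c 2 = m (c 0) (c 1)}

def IsAutopara {T : Type} (m : T → T → T) (φ : (Fin 3 → T) → Fin 3 → T) : Prop :=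
  (∃ (σ : Equiv.Perm (Fin 3)) (g : Fin 3 → Equiv.Perm T), ∀ c i, φ c (σ i) = g i (c i)) ∧
    φ '' Cells m = Cells m

def IsPrimitive {T : Type} (m : T → T → T) : Prop :=
  (∀ c ∈ Cells m, ∀ d ∈ Cells m, ∃ φ, IsAutopara m φ ∧ φ c = d) ∧
    ∀ r : Setoid (Cells m), (∀ φ, IsAutopara m φ → ∀ c d c' d' : Cells m,
      φ c = c' → φ d = d' → r c d → r c' d') → r = ⊥ ∨ r = ⊤

end Pool.Agent.H.MP_b62fd5_al
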