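import Mathlib

set_option autoImplicit false

namespace Pool.Agent.H.MP_b62fd5_al

abbrev Pt := Fin 3 × ℕ
abbrev Cl := Fin 3 → ℕ

def Maps (s : Fin 3) (r : Pt → Pt → Prop) (c d : Cl) : Prop :=
  ∀ l, r (l, c l) (l + s, d (l + s))

lemma Maps.flip {s : Fin 3} {r : Pt → Pt → Prop} {c d : Cl} (h : Maps s r c d) :
    Maps (-s) (flip r) d c := fun l => by
  have := h (l + -s)
  rwa [neg_add_cancel_right] at this

lemma Maps.unflip {s : Fin 3} {r : Pt → Pt → Prop} {c d : Cl} (h : Maps (-s) (_root_.flip r) d c) :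
    Maps s r c d := by
  have := h.flip
  rwa [neg_neg] at this

lemma Maps.mono {s : Fin 3} {r r' : Pt → Pt → Prop} {c d : Cl} (h : Maps s r c d)
    (hr : ∀ u v, r u v → r' u v) : Maps s r' c d := fun l => hr _ _ (h l)

structure Half (L : Set Cl) (s : Fin 3) (r : Pt → Pt → Prop) : Prop where
  sort : ∀ u v, r u v → v.1 = u.1 + s
  fn : ∀ u v v', r u v → r u v' → v = v'
  cl : ∀ c ∈ L, ∀ i j, i ≠ j → ∀ u v, r (i, c i) u → r (j, c j) v → ∃ d ∈ L, Maps s r c d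

structure PI (L : Set Cl) (N : ℕ) (s : Fin 3) (r : Pt → Pt → Prop) : Prop where
  fw : Half L s r
  bw : Half L (-s) (flip r)
  bd : ∀ u v, r u v → u.2 < N ∧ v.2 < N

lemma PI.symm {L : Set Cl} {N : ℕ} {s : Fin 3} {r : Pt → Pt → Prop} (h : PI L N s r) :
    PI L N (-s) (flip r) :=
  ⟨h.bw, by rw [neg_neg]; exact h.fw, fun u v e => (h.bd v u e).symm⟩

lemma PI.unsymm {L : Set Cl} {N : ℕ} {s : Fin 3} {r : Pt → Pt → Prop} (h : PI L N (-s) r) :
    PI L N s (flip r) := by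
  have := h.symm
  rwa [neg_neg] at this

structure St (N : ℕ) (L : Set Cl) : Prop where
  bnd : ∀ c ∈ L, ∀ i, c i < N
  lat : ∀ c ∈ L, ∀ d ∈ L, ∀ i j, i ≠ j → c i = d i → c j = d j → c = d

structure Thin (L : Set Cl) (N : ℕ) (L' : Set Cl) : Prop where
  sub : L ⊆ L'
  old : ∀ c ∈ L', ∀ i j, i ≠ j → c i < N → c j < N → c ∈ L

lemma Half.thin {L L' : Set Cl} {N : ℕ} {s : Fin 3} {r : Pt → Pt → Prop} (h : Half L s r)
    (hb : ∀ u v, r u v → u.2 < N) (t : Thin L N L') : Half L' s r :=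
  ⟨h.sort, h.fn, fun c hc i j ij u v hu hv => by
    obtain ⟨d, hd, m⟩ := h.cl c (t.old c hc i j ij (hb _ _ hu) (hb _ _ hv)) i j ij u v hu hv
    exact ⟨d, t.sub hd, m⟩⟩

lemma PI.thin {L L' : Set Cl} {N N' : ℕ} {s : Fin 3} {r : Pt → Pt → Prop} (h : PI L N s r)
    (t : Thin L N L') (hN : N ≤ N') : PI L' N' s r :=
  ⟨h.fw.thin (fun u v e => (h.bd u v e).1) t, h.bw.thin (fun u v e => (h.bd v u e).2) t,
    fun u v e => ⟨(h.bd u v e).1.trans_le hN, (h.bd u v e).2.trans_le hN⟩⟩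

/-- Extension of a closed isomorphism to the whole current structure. -/
lemma ext_step {L : Set Cl} {N : ℕ} {s : Fin 3} {r : Pt → Pt → Prop} (st : St N L)
    (h : PI L N s r) : ∃ (φ : Pt → ℕ) (L' : Set Cl),
    (∀ u : Pt, r u (u.1 + s, φ u) ∨ ((∀ v, ¬ r u v) ∧ φ u = u.2 + N)) ∧
    (∀ d, d ∈ L' ↔ d ∈ L ∨ ∃ c ∈ L, ∀ l, d (l + s) = φ (l, c l)) ∧
    St (2 * N) L' ∧ Thin L N L' ∧
    PI L' (2 * N) s (fun u v => u.2 < N ∧ v = (u.1 + s, φ u)) ∧
    ∀ u v, r u v → u.2 < N ∧ v = (u.1 + s, φ u) := by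
  classical
  have hφ : ∀ u : Pt, ∃ b : ℕ, r u (u.1 + s, b) ∨ ((∀ v, ¬ r u v) ∧ b = u.2 + N) := fun u => by
    by_cases e : ∃ v, r u v
    · obtain ⟨v, hv⟩ := e
      exact ⟨v.2, Or.inl (by rw [← h.fw.sort u v hv]; exact hv)⟩
    · exact ⟨_, Or.inr ⟨fun v hv => e ⟨v, hv⟩, rfl⟩⟩
  choose φ hφ using hφ
  have sm : ∀ u, φ u < N → r u (u.1 + s, φ u) := fun u e =>
    (hφ u).resolve_right fun e' => by omega
  have le : ∀ u v, r u v → u.2 < N ∧ v = (u.1 + s, φ u) := fun u v e =>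
    ⟨(h.bd u v e).1, h.fw.fn u _ _ e ((hφ u).resolve_right fun e' => e'.1 v e)⟩
  have inj : ∀ i a b, φ (i, a) = φ (i, b) → a = b := fun i a b e => by
    rcases hφ (i, a) with ha | ha
    · have hb := sm (i, b) (e ▸ (h.bd _ _ ha).2)
      rw [e] at ha
      exact congrArg Prod.snd (h.bw.fn _ _ _ ha hb)
    · rcases hφ (i, b) with hb | hb
      · have := (h.bd _ _ hb).2
        have := ha.2
        simp only at *
        omega
      · have := ha.2
        have := hb.2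
        simp only at *
        omega
  have sh : ∀ {d c : Cl}, (∀ l, d (l + s) = φ (l, c l)) → ∀ i, d i = φ (i - s, c (i - s)) :=
    fun e i => by rw [← e, sub_add_cancel]
  have th : Thin L N {d | d ∈ L ∨ ∃ c ∈ L, ∀ l, d (l + s) = φ (l, c l)} := by
    refine ⟨fun d hd => Or.inl hd, ?_⟩
    rintro d (hd | ⟨c, hc, e⟩) i j ij hi hj
    · exact hd
    rw [sh e] at hi hj
    obtain ⟨d', hd', m⟩ := h.fw.cl c hc _ _ (fun e => ij (sub_left_injective e)) _ _
      (sm _ hi) (sm _ hj)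
    have : d = d' := funext fun l => by
      have := congrArg Prod.snd (le _ _ (m (l - s))).2
      rw [sh e]
      simpa using this.symm
    exact this ▸ hd'
  have bφ : ∀ u : Pt, u.2 < N → φ u < 2 * N := fun u e => by
    rcases hφ u with ha | ha
    · have := (h.bd _ _ ha).2
      simp only at this
      omega
    · omega
  refine ⟨φ, _, hφ, fun d => Iff.rfl, ⟨?_, ?_⟩, th, ⟨⟨?_, ?_, ?_⟩, ⟨?_, ?_, ?_⟩, ?_⟩, le⟩
  · rintro d (hd | ⟨c, hc, e⟩) i
    · have := st.bnd d hd i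
      omega
    · rw [sh e]
      exact bφ _ (st.bnd c hc _)
  · intro x hx y hy i j ij ei ej
    by_cases b : x i < N ∧ x j < N
    · exact st.lat x (th.old x hx i j ij b.1 b.2) y
        (th.old y hy i j ij (ei ▸ b.1) (ej ▸ b.2)) i j ij ei ej
    · obtain ⟨c, hc, e⟩ := hx.resolve_left fun hx => b ⟨st.bnd x hx i, st.bnd x hx j⟩
      obtain ⟨c', hc', e'⟩ := hy.resolve_left fun hy => b ⟨ei ▸ st.bnd y hy i, ej ▸ st.bnd y hy j⟩
      rw [sh e, sh e'] at ei ej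
      have := st.lat c hc c' hc' _ _ (fun e => ij (sub_left_injective e)) (inj _ _ _ ei)
        (inj _ _ _ ej)
      subst this
      exact funext fun l => by rw [sh e, sh e']
  · rintro u v ⟨-, rfl⟩
    rfl
  · rintro u v v' ⟨-, rfl⟩ ⟨-, rfl⟩
    rfl
  · rintro c hc i j ij u v ⟨hi, -⟩ ⟨hj, -⟩
    have hc' := th.old c hc i j ij hi hj
    refine ⟨fun m => φ (m - s, c (m - s)), Or.inr ⟨c, hc', fun l => by simp⟩, fun l => ?_⟩
    exact ⟨st.bnd c hc' l, by simp⟩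
  · rintro v u ⟨-, rfl⟩
    simp
  · rintro v ⟨i, a⟩ ⟨j, b⟩ ⟨-, rfl⟩ ⟨-, e⟩
    obtain ⟨e1, e2⟩ := Prod.ext_iff.1 e
    obtain rfl : i = j := add_right_cancel e1
    rw [inj _ _ _ e2]
  · rintro d (hd | ⟨c, hc, e⟩) i j ij u v ⟨-, hu⟩ ⟨-, hv⟩
    · have hu' := sm u ((congrArg Prod.snd hu).symm.trans_lt (st.bnd d hd i))
      have hv' := sm v ((congrArg Prod.snd hv).symm.trans_lt (st.bnd d hd j))
      rw [← hu] at hu'
      rw [← hv] at hv'
      obtain ⟨c, hc, m⟩ := h.bw.cl d hd i j ij u v hu' hv'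
      exact ⟨c, Or.inl hc, (m.unflip.mono le).flip⟩
    · exact ⟨c, Or.inl hc, Maps.flip fun l => ⟨st.bnd c hc l, by rw [e]⟩⟩
  · rintro u v ⟨hu, rfl⟩
    exact ⟨by omega, bφ u hu⟩

lemma f3 (l m : Fin 3) : m = l ∨ m = l + 1 ∨ m = l + 2 := by revert l m; decide
lemma n1 (l : Fin 3) : l + 1 ≠ l := by revert l; decide
lemma n2 (l : Fin 3) : l + 2 ≠ l := by revert l; decide
lemma n12 (l : Fin 3) : l + 1 ≠ l + 2 := by revert l; decide

structure New (L : Set Cl) (N : ℕ) (l : Fin 3) (c : Cl) : Prop where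
  b1 : c (l + 1) < N
  b2 : c (l + 2) < N
  no : ∀ x ∈ L, x (l + 1) = c (l + 1) → x (l + 2) ≠ c (l + 2)
  val : c l = N + Nat.pair (c (l + 1)) (c (l + 2))

def Cmp (L : Set Cl) (N : ℕ) : Set Cl := {c | c ∈ L ∨ ∃ l, New L N l c}

def CmpR (L : Set Cl) (N : ℕ) (s : Fin 3) (r : Pt → Pt → Prop) (u v : Pt) : Prop :=
  r u v ∨ ∃ l c d, u = (l, c l) ∧ v = (l + s, d (l + s)) ∧ New L N l c ∧ New L N (l + s) d ∧
    r (l + 1, c (l + 1)) (l + s + 1, d (l + s + 1)) ∧ r (l + 2, c (l + 2)) (l + s + 2, d (l + s + 2))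

lemma mk_new (l : Fin 3) (a b e : ℕ) : ∃ d : Cl, d l = e ∧ d (l + 1) = a ∧ d (l + 2) = b :=
  ⟨fun m => if m = l then e else if m = l + 1 then a else b, by simp, by simp [n1],
    by simp [n2, (n12 l).symm]⟩

lemma New.small {L : Set Cl} {N : ℕ} {l : Fin 3} {c : Cl} (h : New L N l c) {m : Fin 3}
    (e : m ≠ l) : c m < N := by
  rcases f3 l m with rfl | rfl | rfl
  · exact absurd rfl e
  · exact h.b1
  · exact h.b2

lemma New.big {L : Set Cl} {N : ℕ} {l : Fin 3} {c : Cl} (h : New L N l c) : N ≤ c l := by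
  rw [h.val]; omega

lemma New.eq {L : Set Cl} {N : ℕ} {l : Fin 3} {c d : Cl} (h : New L N l c) (h' : New L N l d)
    (e : c l = d l) : c (l + 1) = d (l + 1) ∧ c (l + 2) = d (l + 2) := by
  rw [h.val, h'.val] at e
  exact Nat.pair_eq_pair.1 (by omega)

lemma New.bd {L : Set Cl} {N : ℕ} {l : Fin 3} {c : Cl} (h : New L N l c) : c l < N + N ^ 2 := by
  have := Nat.pair_lt_max_add_one_sq (c (l + 1)) (c (l + 2))
  have h2 : (max (c (l + 1)) (c (l + 2)) + 1) ^ 2 ≤ N ^ 2 :=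
    Nat.pow_le_pow_left (max_lt h.b1 h.b2) 2
  rw [h.val]; omega

lemma two (P : Fin 3 → Prop) {l i j : Fin 3} (ij : i ≠ j) (hi : i ≠ l) (hj : j ≠ l) (a : P i)
    (b : P j) : P (l + 1) ∧ P (l + 2) := by
  have : ∀ l i j : Fin 3, i ≠ j → i ≠ l → j ≠ l →
    (i = l + 1 ∧ j = l + 2) ∨ (i = l + 2 ∧ j = l + 1) := by decide
  rcases this l i j ij hi hj with ⟨rfl, rfl⟩ | ⟨rfl, rfl⟩
  exacts [⟨a, b⟩, ⟨b, a⟩]

lemma cmp_st {L : Set Cl} {N : ℕ} (st : St N L) : St (N + N ^ 2) (Cmp L N) := by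
  have on : ∀ x ∈ L, ∀ y l, New L N l y → ∀ i j, i ≠ j → x i = y i → x j = y j → False := by
    intro x hx y l hy i j ij ei ej
    have b := hy.big
    have := two (fun m => x m = y m) (l := l) ij
      (fun e => by subst e; have := st.bnd x hx i; omega)
      (fun e => by subst e; have := st.bnd x hx j; omega) ei ej
    exact hy.no x hx this.1 this.2
  constructor
  · rintro c (hc | ⟨l, hc⟩) i
    · have := st.bnd c hc i
      omega
    · by_cases e : i = l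
      · exact e ▸ hc.bd
      · have := hc.small e
        omega
  · rintro x (hx | ⟨l, hx⟩) y (hy | ⟨l', hy⟩) i j ij ei ej
    · exact st.lat x hx y hy i j ij ei ej
    · exact (on x hx y l' hy i j ij ei ej).elim
    · exact (on y hy x l hx i j ij ei.symm ej.symm).elim
    · have nl : ∀ m, x m = y m → l ≠ l' → m ≠ l ∧ m ≠ l' := fun m e ll =>
        ⟨fun e' => by subst e'; have := hx.big; have := hy.small ll; omega,
          fun e' => by subst e'; have := hy.big; have := hx.small ll.symm; omega⟩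
      obtain rfl : l = l' := by
        by_contra ll
        have h1 := nl i ei ll
        have h2 := nl j ej ll
        revert h1 h2 ij ll
        generalize l = l, l' = l'
        clear * -
        revert i j l l'
        decide
      have : x (l + 1) = y (l + 1) ∧ x (l + 2) = y (l + 2) := by
        by_cases e : x l = y l
        · exact hx.eq hy e
        · exact two (fun m => x m = y m) ij (fun e' => e (e' ▸ ei)) (fun e' => e (e' ▸ ej)) ei ej
      funext m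
      rcases f3 l m with rfl | rfl | rfl
      · rw [hx.val, hy.val, this.1, this.2]
      · exact this.1
      · exact this.2

lemma cmp_has (L : Set Cl) {N : ℕ} (l : Fin 3) {a b : ℕ} (ha : a < N) (hb : b < N) :
    ∃ c ∈ Cmp L N, c (l + 1) = a ∧ c (l + 2) = b := by
  by_cases e : ∃ c ∈ L, c (l + 1) = a ∧ c (l + 2) = b
  · obtain ⟨c, hc, e⟩ := e
    exact ⟨c, Or.inl hc, e⟩
  · obtain ⟨d, e0, rfl, rfl⟩ := mk_new l a b (N + Nat.pair a b)
    exact ⟨d, Or.inr ⟨l, ha, hb, fun x hx e1 e2 => e ⟨x, hx, e1, e2⟩, e0⟩, rfl, rfl⟩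

lemma cmp_half {L : Set Cl} {N : ℕ} {s : Fin 3} {r : Pt → Pt → Prop} (st : St N L)
    (h : PI L N s r) : Half (Cmp L N) s (CmpR L N s r) := by
  have sm : ∀ u v, u.2 < N → CmpR L N s r u v → r u v := by
    rintro u v hu (e | ⟨l, c, d, rfl, -, hc, -⟩)
    · exact e
    · exact absurd hu (not_lt.2 hc.big)
  refine ⟨?_, ?_, ?_⟩
  · rintro u v (e | ⟨l, c, d, rfl, rfl, -⟩)
    · exact h.fw.sort u v e
    · rfl
  · rintro u v v' (e | ⟨l, c, d, rfl, rfl, hc, hd, e1, e2⟩) e'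
    · exact h.fw.fn _ _ _ e (sm _ _ (h.bd _ _ e).1 e')
    rcases e' with e' | ⟨l', c', d', e, rfl, hc', hd', e1', e2'⟩
    · exact absurd (h.bd _ _ e').1 (not_lt.2 hc.big)
    obtain ⟨rfl, e⟩ := Prod.ext_iff.1 e
    obtain ⟨f1, f2⟩ := hc.eq hc' e
    rw [← f1] at e1'
    rw [← f2] at e2'
    have g1 := congrArg Prod.snd (h.fw.fn _ _ _ e1 e1')
    have g2 := congrArg Prod.snd (h.fw.fn _ _ _ e2 e2')
    simp only at g1 g2
    rw [hd.val, hd'.val, g1, g2]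
  · rintro c (hc | ⟨l, hc⟩) i j ij u v hu hv
    · obtain ⟨d, hd, m⟩ := h.fw.cl c hc i j ij u v (sm _ _ (st.bnd c hc i) hu)
        (sm _ _ (st.bnd c hc j) hv)
      exact ⟨d, Or.inl hd, m.mono fun _ _ => Or.inl⟩
    have k : ∀ w, CmpR L N s r (l, c l) w →
        (∃ w, r (l + 1, c (l + 1)) w) ∧ ∃ w, r (l + 2, c (l + 2)) w := by
      rintro w (e | ⟨l', c', d', e, rfl, hc', hd', e1', e2'⟩)
      · exact absurd (h.bd _ _ e).1 (not_lt.2 hc.big)
      obtain ⟨rfl, e⟩ := Prod.ext_iff.1 e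
      obtain ⟨f1, f2⟩ := hc.eq hc' e
      exact ⟨⟨_, f1 ▸ e1'⟩, ⟨_, f2 ▸ e2'⟩⟩
    have : (∃ w, r (l + 1, c (l + 1)) w) ∧ ∃ w, r (l + 2, c (l + 2)) w := by
      by_cases e : i = l
      · exact k u (e ▸ hu)
      by_cases e' : j = l
      · exact k v (e' ▸ hv)
      exact two (fun m => ∃ w, r (m, c m) w) ij e e' ⟨u, sm _ _ (hc.small e) hu⟩
        ⟨v, sm _ _ (hc.small e') hv⟩
    obtain ⟨⟨⟨i1, a⟩, ha⟩, ⟨i2, b⟩, hb⟩ := this
    obtain rfl : i1 = l + s + 1 := (h.fw.sort _ _ ha).trans (add_right_comm _ _ _)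
    obtain rfl : i2 = l + s + 2 := (h.fw.sort _ _ hb).trans (add_right_comm _ _ _)
    obtain ⟨d, e0, rfl, rfl⟩ := mk_new (l + s) a b (N + Nat.pair a b)
    have hd : New L N (l + s) d := by
      refine ⟨(h.bd _ _ ha).2, (h.bd _ _ hb).2, fun x hx e1 e2 => ?_, e0⟩
      rw [← e1] at ha
      rw [← e2] at hb
      obtain ⟨y, hy, m⟩ := h.bw.cl x hx _ _ (n12 _) _ _ ha hb
      have m1 := m.unflip (l + 1)
      have m2 := m.unflip (l + 2)
      rw [add_right_comm] at m1 m2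
      exact hc.no y hy (congrArg Prod.snd (h.bw.fn _ _ _ m1 ha))
        (congrArg Prod.snd (h.bw.fn _ _ _ m2 hb))
    refine ⟨d, Or.inr ⟨_, hd⟩, fun m => ?_⟩
    rcases f3 l m with rfl | rfl | rfl
    · exact Or.inr ⟨m, c, d, rfl, rfl, hc, hd, ha, hb⟩
    · rw [add_right_comm]; exact Or.inl ha
    · rw [add_right_comm]; exact Or.inl hb

lemma cmp_flip (L : Set Cl) (N : ℕ) (s : Fin 3) (r : Pt → Pt → Prop) :
    flip (CmpR L N s r) = CmpR L N (-s) (flip r) := by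
  funext v u
  apply propext
  constructor
  · rintro (e | ⟨l, c, d, rfl, rfl, hc, hd, e1, e2⟩)
    · exact Or.inl e
    · refine Or.inr ⟨l + s, d, c, rfl, ?_, hd, ?_, ?_, ?_⟩ <;> rw [add_neg_cancel_right] <;>
        first | assumption | rfl
  · rintro (e | ⟨l, c, d, rfl, rfl, hc, hd, e1, e2⟩)
    · exact Or.inl e
    · refine Or.inr ⟨l + -s, d, c, rfl, ?_, hd, ?_, ?_, ?_⟩ <;> rw [neg_add_cancel_right] <;>
        first | assumption | rfl

lemma cmp_pi {L : Set Cl} {N : ℕ} {s : Fin 3} {r : Pt → Pt → Prop} (st : St N L)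
    (h : PI L N s r) : PI (Cmp L N) (N + N ^ 2) s (CmpR L N s r) := by
  refine ⟨cmp_half st h, by rw [cmp_flip]; exact cmp_half st h.symm, ?_⟩
  rintro u v (e | ⟨l, c, d, rfl, rfl, hc, hd, -⟩)
  · have := h.bd u v e
    omega
  · exact ⟨hc.bd, hd.bd⟩

end Pool.Agent.H.MP_b62fd5_al
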