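import Mathlib
import Pool.Agent.H.MP_b62fd5_al.Steps

set_option autoImplicit false

namespace Pool.Agent.H.MP_b62fd5_al

abbrev Ix := ℕ × Fin 3

structure Cond where
  N : ℕ
  L : Set Cl
  R : Ix → Pt → Pt → Prop
  st : St N L
  pi : ∀ k, PI L N k.2 (R k)
  fin : ∀ k u v, R k u v → k.1 < N

structure Le (p q : Cond) : Prop where
  N : p.N ≤ q.N
  L : p.L ⊆ q.L
  R : ∀ k u v, p.R k u v → q.R k u v
  old : ∀ c ∈ q.L, (∀ i, c i < p.N) → c ∈ p.L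

instance : Preorder Cond where
  le := Le
  le_refl p := ⟨le_rfl, subset_rfl, fun _ _ _ h => h, fun _ h _ => h⟩
  le_trans p q r a b := ⟨a.N.trans b.N, a.L.trans b.L, fun k u v h => b.R k u v (a.R k u v h),
    fun c hc h => a.old c (b.old c hc fun i => (h i).trans_le a.N) h⟩

lemma upd (p : Cond) {N : ℕ} {L : Set Cl} (st : St N L) (t : Thin p.L p.N L) (hN : p.N ≤ N)
    (k : Ix) {r : Pt → Pt → Prop} (h : PI L N k.2 r) (hr : ∀ u v, p.R k u v → r u v)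
    (hk : k.1 < N) : ∃ q : Cond, p ≤ q ∧ q.N = N ∧ q.L = L ∧ q.R k = r := by
  classical
  refine ⟨⟨N, L, Function.update p.R k r, st, fun j => ?_, fun j u v e => ?_⟩,
    ⟨hN, t.sub, fun j u v e => ?_, fun c hc b => t.old c hc 0 1 (by decide) (b 0) (b 1)⟩,
    rfl, rfl, by simp⟩
  · by_cases e : j = k
    · subst e; simpa using h
    · rw [Function.update_of_ne e]; exact (p.pi j).thin t hN
  · by_cases e' : j = k
    · exact e' ▸ hk
    · rw [Function.update_of_ne e'] at e; exact (p.fin j u v e).trans_le hN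
  · by_cases e' : j = k
    · subst e'; simpa using hr u v e
    · simpa [Function.update_of_ne e'] using e

lemma Thin.rfl' (L : Set Cl) (N : ℕ) : Thin L N L := ⟨subset_rfl, fun _ h _ _ _ _ _ => h⟩

lemma St.mono {N N' : ℕ} {L : Set Cl} (st : St N L) (h : N ≤ N') : St N' L :=
  ⟨fun c hc i => (st.bnd c hc i).trans_le h, st.lat⟩

lemma bump (p : Cond) (n : ℕ) : ∃ q : Cond, p ≤ q ∧ n < q.N :=
  ⟨⟨p.N + n + 1, p.L, p.R, p.st.mono (by omega), fun k => (p.pi k).thin (Thin.rfl' _ _) (by omega),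
    fun k u v e => by have := p.fin k u v e; omega⟩,
    ⟨by simp only; omega, subset_rfl, fun _ _ _ h => h, fun _ h _ => h⟩, by simp only; omega⟩

lemma d_cell (p : Cond) (l : Fin 3) (a b : ℕ) :
    ∃ q : Cond, p ≤ q ∧ ∃ c ∈ q.L, c (l + 1) = a ∧ c (l + 2) = b := by
  obtain ⟨q, pq, h⟩ := bump p (a + b)
  refine ⟨⟨q.N + q.N ^ 2, Cmp q.L q.N, fun k => CmpR q.L q.N k.2 (q.R k), cmp_st q.st,
    fun k => cmp_pi q.st (q.pi k), ?_⟩, pq.trans ⟨by simp, fun _ h => Or.inl h,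
    fun _ _ _ h => Or.inl h, ?_⟩, cmp_has _ l (by omega) (by omega)⟩
  · rintro k u v (e | ⟨l, c, d, -, -, -, -, e, -⟩) <;> have := q.fin k _ _ e <;> omega
  · rintro c (hc | ⟨l, hc⟩) h
    · exact hc
    · exact absurd (h l) (not_lt.2 hc.big)

lemma d_dom (p : Cond) (k : Ix) (u : Pt) : ∃ q : Cond, p ≤ q ∧ ∃ v, q.R k u v := by
  obtain ⟨q, pq, h⟩ := bump p (k.1 + u.2)
  obtain ⟨φ, L, -, -, st, t, pi, le⟩ := ext_step q.st (q.pi k)
  obtain ⟨r, qr, -, -, e⟩ := upd q st t (by omega) k pi le (by omega)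
  exact ⟨r, pq.trans qr, _, by rw [e]; exact ⟨by omega, rfl⟩⟩

lemma d_ran (p : Cond) (k : Ix) (v : Pt) : ∃ q : Cond, p ≤ q ∧ ∃ u, q.R k u v := by
  obtain ⟨q, pq, h⟩ := bump p (k.1 + v.2)
  obtain ⟨φ, L, -, -, st, t, pi, le⟩ := ext_step q.st (q.pi k).symm
  obtain ⟨r, qr, -, -, e⟩ := upd q st t (by omega) k pi.unsymm (fun u v => le v u) (by omega)
  exact ⟨r, pq.trans qr, _, by rw [e]; exact ⟨by omega, rfl⟩⟩

lemma one_half {N : ℕ} {L : Set Cl} (st : St N L) {c : Cl} (hc : c ∈ L) (s : Fin 3) :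
    Half L s (fun u v => u.2 = c u.1 ∧ v.1 = u.1 + s ∧ v.2 = c v.1) :=
  ⟨fun _ _ e => e.2.1, fun u v v' e e' => Prod.ext (e.2.1.trans e'.2.1.symm)
    (by rw [e.2.2, e'.2.2, e.2.1, e'.2.1]), fun x hx i j ij u v e e' =>
    ⟨c, hc, fun l => ⟨by rw [st.lat x hx c hc i j ij e.1 e'.1], rfl, rfl⟩⟩⟩

/-- An automorphism that fixes the cell `c`, rotates the sorts by `s` and sends everything else
to fresh points. -/
lemma d_one (p : Cond) {c : Cl} (hc : c ∈ p.L) (s : Fin 3) : ∃ q : Cond, p ≤ q ∧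
    Maps s (q.R (p.N, s)) c c ∧ (∀ d ∈ p.L, ∃ d' ∈ q.L, Maps s (q.R (p.N, s)) d d' ∧
      ∀ i, (d i = c i → d' (i + s) = c (i + s)) ∧ (d i ≠ c i → d' (i + s) = d i + (p.N + 1))) ∧
    ∀ x ∈ q.L, x ∈ p.L ∨ ∀ i, x i ≤ p.N → x i = c i := by
  have st := p.st.mono (Nat.le_succ _)
  have pi : PI p.L (p.N + 1) s (fun u v => u.2 = c u.1 ∧ v.1 = u.1 + s ∧ v.2 = c v.1) := by
    refine ⟨one_half st hc s, ?_, fun u v e => ⟨e.1 ▸ st.bnd c hc _, e.2.2 ▸ st.bnd c hc _⟩⟩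
    convert one_half st hc (-s) using 3 with v u
    exact ⟨fun e => ⟨e.2.2, by rw [e.2.1]; simp, e.1⟩, fun e => ⟨e.2.2, by rw [e.2.1]; simp, e.1⟩⟩
  obtain ⟨φ, L, hφ, hL, st', t, pi', le⟩ := ext_step st pi
  obtain ⟨q, pq, -, e1, e2⟩ := upd p st' ⟨t.sub, fun x hx i j ij a b =>
    t.old x hx i j ij (by omega) (by omega)⟩ (by omega) (p.N, s) pi'
    (fun u v e => absurd (p.fin _ u v e) (lt_irrefl _)) (by simp only; omega)
  refine ⟨q, pq, ?_⟩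
  rw [e2, e1]
  refine ⟨fun l => ?_, fun d hd => ?_, fun x hx => ?_⟩
  · exact le _ _ ⟨rfl, rfl, rfl⟩
  · refine ⟨fun m => φ (m - s, d (m - s)), (hL _).2 (Or.inr ⟨d, hd, fun l => by simp⟩),
      fun l => ⟨st.bnd d hd l, by simp⟩, fun i => ?_⟩
    simp only [add_sub_cancel_right]
    rcases hφ (i, d i) with e | e
    · exact ⟨fun _ => e.2.2, fun h => absurd e.1 h⟩
    · exact ⟨fun h => absurd ⟨h, rfl, rfl⟩ (e.1 (i + s, c (i + s))), fun _ => e.2⟩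
  · rcases (hL x).1 hx with hx | ⟨y, hy, e⟩
    · exact Or.inl hx
    refine Or.inr fun i hi => ?_
    obtain ⟨i, rfl⟩ : ∃ j, i = j + s := ⟨i - s, by simp⟩
    rw [e] at hi ⊢
    rcases hφ (i, y i) with e | e
    · exact e.2.2
    · have := e.2
      omega

def Free (L : Set Cl) (c c' : Cl) : Prop :=
  (∀ i, c i ≠ c' i) ∧ ∀ x ∈ L, ∀ i j, i ≠ j → x i = c i → x j ≠ c' j

lemma two_half {N : ℕ} {L : Set Cl} (st : St N L) {c c' e e' : Cl} (hc : c ∈ L) (hc' : c' ∈ L)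
    (he : e ∈ L) (he' : e' ∈ L) (f : Free L c c') :
    Half L 0 (fun u v => u.1 = v.1 ∧ ((u.2 = c u.1 ∧ v.2 = e v.1) ∨ (u.2 = c' u.1 ∧ v.2 = e' v.1))) := by
  refine ⟨fun _ _ h => by simp [h.1], ?_, ?_⟩
  · rintro ⟨i, a⟩ ⟨j, b⟩ ⟨j', b'⟩ ⟨rfl, h⟩ ⟨rfl, h'⟩
    have := f.1 i
    simp only at *
    rcases h with ⟨rfl, rfl⟩ | ⟨rfl, rfl⟩ <;> rcases h' with ⟨h, rfl⟩ | ⟨h, rfl⟩ <;> simp_all
  · rintro x hx i j ij u v ⟨-, ⟨h, -⟩ | ⟨h, -⟩⟩ ⟨-, ⟨h', -⟩ | ⟨h', -⟩⟩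
    · obtain rfl := st.lat x hx c hc i j ij h h'
      exact ⟨e, he, fun l => ⟨by simp, Or.inl ⟨rfl, rfl⟩⟩⟩
    · exact absurd h' (f.2 x hx i j ij h)
    · exact absurd h (f.2 x hx j i ij.symm h')
    · obtain rfl := st.lat x hx c' hc' i j ij h h'
      exact ⟨e', he', fun l => ⟨by simp, Or.inr ⟨rfl, rfl⟩⟩⟩

lemma d_two (p : Cond) {c c' e e' : Cl} (hc : c ∈ p.L) (hc' : c' ∈ p.L)
    (he : e ∈ p.L) (he' : e' ∈ p.L) (f : Free p.L c c') (f' : Free p.L e e') :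
    ∃ q : Cond, p ≤ q ∧ q.L = p.L ∧ ∃ n, Maps 0 (q.R (n, 0)) c e ∧ Maps 0 (q.R (n, 0)) c' e' := by
  have st := p.st.mono (Nat.le_succ _)
  have pi : PI p.L (p.N + 1) 0 (fun u v => u.1 = v.1 ∧
      ((u.2 = c u.1 ∧ v.2 = e v.1) ∨ (u.2 = c' u.1 ∧ v.2 = e' v.1))) := by
    refine ⟨two_half st hc hc' he he' f, ?_, ?_⟩
    · convert two_half st he he' hc hc' f' using 3 with v u
      · simp
      · simp only [flip]
        tauto
    · rintro u v ⟨-, ⟨h, h'⟩ | ⟨h, h'⟩⟩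
      · exact ⟨h ▸ st.bnd c hc _, h' ▸ st.bnd e he _⟩
      · exact ⟨h ▸ st.bnd c' hc' _, h' ▸ st.bnd e' he' _⟩
  obtain ⟨q, pq, -, e1, e2⟩ := upd p st (Thin.rfl' _ _) (by omega) (p.N, 0) pi
    (fun u v e => absurd (p.fin _ u v e) (lt_irrefl _)) (by simp only; omega)
  refine ⟨q, pq, e1, p.N, ?_⟩
  rw [e2]
  exact ⟨fun l => ⟨by simp, Or.inl ⟨rfl, rfl⟩⟩, fun l => ⟨by simp, Or.inr ⟨rfl, rfl⟩⟩⟩

lemma d_fresh (p : Cond) : ∃ q : Cond, p ≤ q ∧ q.L = insert (fun _ => p.N) p.L := by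
  have t : Thin p.L p.N (insert (fun _ => p.N) p.L) := ⟨Set.subset_insert _ _, by
    rintro c (rfl | hc) i j ij a b
    · exact absurd a (lt_irrefl _)
    · exact hc⟩
  suffices st : St (p.N + 1) (insert (fun _ => p.N) p.L) by
    obtain ⟨q, pq, -, e, -⟩ := upd p st t
      (by omega) (0, 0) ((p.pi _).thin t (by omega)) (fun _ _ h => h) (by simp)
    exact ⟨q, pq, e⟩
  constructor
  · rintro c (rfl | hc) i
    · simp
    · have := p.st.bnd c hc i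
      omega
  · rintro c (rfl | hc) d (rfl | hd) i j ij a b
    · rfl
    · exact absurd (p.st.bnd d hd i) (by rw [← a]; simp)
    · exact absurd (p.st.bnd c hc i) (by rw [a]; simp)
    · exact p.st.lat c hc d hd i j ij a b

def WQ (q : Cond) (c d : Cl) : Prop :=
  ∃ k : Ix, ∃ d' ∈ q.L, Maps k.2 (q.R k) c c ∧ Maps k.2 (q.R k) d d' ∧ ∀ i, d i ≠ d' i

lemma d_Q (p : Cond) {c d : Cl} (hc : c ∈ p.L) (hd : d ∈ p.L) (cd : c ≠ d) :
    ∃ q : Cond, p ≤ q ∧ WQ q c d := by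
  obtain ⟨q, pq, m, h, -⟩ := d_one p hc 1
  obtain ⟨d', hd', m', h⟩ := h d hd
  refine ⟨q, pq, (p.N, 1), d', hd', m, m', fun i e => ?_⟩
  obtain ⟨i, rfl⟩ : ∃ j, i = j + 1 := ⟨i - 1, by simp⟩
  by_cases b : d i = c i
  · exact cd (p.st.lat c hc d hd _ _ (n1 i) (e.trans ((h i).1 b)).symm b.symm)
  · have := (h i).2 b
    have := p.st.bnd d hd (i + 1)
    omega

def WP (q : Cond) (c d e f : Cl) : Prop :=
  ∃ k1 k2 k3 : Ix, ∃ c' ∈ q.L, ∃ h ∈ q.L, Maps k1.2 (q.R k1) d d ∧ Maps k1.2 (q.R k1) c c' ∧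
    Maps k2.2 (q.R k2) c e ∧ Maps k2.2 (q.R k2) c' h ∧ Maps k3.2 (q.R k3) c f ∧
    Maps k3.2 (q.R k3) c' h

lemma d_P (p : Cond) {c d e f : Cl} (hc : c ∈ p.L) (hd : d ∈ p.L) (he : e ∈ p.L) (hf : f ∈ p.L)
    (cd : ∀ i, c i ≠ d i) : ∃ q : Cond, p ≤ q ∧ WP q c d e f := by
  obtain ⟨q, pq, m, h, hx⟩ := d_one p hd 0
  obtain ⟨c', hc', m', h⟩ := h c hc
  have h' : ∀ i, c' i = c i + (p.N + 1) := fun i => by simpa using (h i).2 (cd i)
  obtain ⟨r, qr, hr⟩ := d_fresh q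
  have hh : (fun _ => q.N) ∈ r.L := hr ▸ Set.mem_insert _ _
  have f1 : Free r.L c c' := by
    refine ⟨fun i => by have := h' i; omega, fun x hx' i j ij a b => ?_⟩
    have := p.st.bnd c hc i
    have := pq.N
    have := h' j
    rcases (hr ▸ hx' : x ∈ insert _ q.L) with rfl | hx'
    · beta_reduce at a
      omega
    rcases hx x hx' with y | y
    · have := p.st.bnd x y j
      omega
    · exact cd i (a.symm.trans (y i (by omega)))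
  have f2 : ∀ e ∈ p.L, Free r.L e (fun _ => q.N) := fun e he => by
    have b := q.st.bnd e (pq.L he)
    refine ⟨fun i => (b i).ne, fun x hx' i j ij a a' => ?_⟩
    rcases (hr ▸ hx' : x ∈ insert _ q.L) with rfl | hx'
    · exact (b i).ne a.symm
    · exact (q.st.bnd x hx' j).ne a'
  have pr := pq.trans qr
  obtain ⟨s, rs, e1, n2, m1, m2⟩ := d_two r (pr.L hc) (qr.L hc') (pr.L he) hh f1 (f2 e he)
  obtain ⟨t, st, e2, n3, m3, m4⟩ := d_two s (rs.L (pr.L hc)) (rs.L (qr.L hc')) (rs.L (pr.L hf))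
    (rs.L hh) (e1 ▸ f1) (e1 ▸ f2 f hf)
  have qt := qr.trans (rs.trans st)
  exact ⟨t, pq.trans qt, (p.N, 0), (n2, 0), (n3, 0), c', qt.L hc', _, st.L (rs.L hh),
    m.mono (qt.R _), m'.mono (qt.R _), m1.mono (st.R _), m2.mono (st.R _), m3, m4⟩

end Pool.Agent.H.MP_b62fd5_al
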