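import Mathlib
import Pool.Agent.H.MP_b62fd5_al.Force
import Pool.Agent.H.MP_b62fd5_al.Defs

set_option autoImplicit false

namespace Pool.Agent.H.MP_b62fd5_al

lemma generic {ι : Type} [Countable ι] (p : Cond) (D : ι → Cond → Prop)
    (h : ∀ i p, ∃ q, p ≤ q ∧ D i q) :
    ∃ sq : ℕ → Cond, Monotone sq ∧ sq 0 = p ∧ ∀ i, ∃ n, D i (sq n) := by
  letI := Encodable.ofCountable ι
  let E : ι → Order.Cofinal Cond := fun i => ⟨{q | D i q}, fun p => by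
    obtain ⟨q, a, b⟩ := h i p
    exact ⟨q, b, a⟩⟩
  exact ⟨_, Order.sequenceOfCofinals.monotone p E, rfl,
    fun i => ⟨_, Order.sequenceOfCofinals.encode_mem p E i⟩⟩

def G (cs : Fin 4 → Cl) (W : Cond → Prop) (q : Cond) : Prop :=
  (∀ a i, cs a i < q.N) ∧ ((∀ a, cs a ∈ q.L) → W q)

lemma guard (cs : Fin 4 → Cl) (W : Cond → Prop)
    (h : ∀ p : Cond, (∀ a, cs a ∈ p.L) → ∃ q, p ≤ q ∧ W q) (p : Cond) : ∃ q, p ≤ q ∧ G cs W q := by
  obtain ⟨B, hB⟩ := (Set.finite_range fun x : Fin 4 × Fin 3 => cs x.1 x.2).bddAbove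
  obtain ⟨q, pq, b⟩ := bump p B
  have hq : ∀ a i, cs a i < q.N := fun a i => (hB ⟨(a, i), rfl⟩).trans_lt b
  by_cases e : ∀ a, cs a ∈ q.L
  · obtain ⟨r, qr, w⟩ := h q e
    exact ⟨r, pq.trans qr, fun a i => (hq a i).trans_le qr.N, fun _ => w⟩
  · exact ⟨q, pq, hq, fun e' => absurd e' e⟩

def L0 : Finset Cl :=
  {![0, 0, 0], ![1, 1, 0], ![0, 1, 1], ![1, 0, 1], ![0, 2, 2], ![1, 3, 2], ![0, 3, 3], ![1, 2, 4]}

def p0 : Cond where
  N := 5
  L := L0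
  R := fun _ _ _ => False
  st := ⟨by simp only [Finset.mem_coe]; decide, by simp only [Finset.mem_coe]; decide⟩
  pi := fun _ => ⟨⟨fun _ _ h => h.elim, fun _ _ _ h => h.elim, fun _ _ _ _ _ _ _ h => h.elim⟩,
    ⟨fun _ _ h => h.elim, fun _ _ _ h => h.elim, fun _ _ _ _ _ _ _ h => h.elim⟩,
    fun _ _ h => h.elim⟩
  fin := fun _ _ _ h => h.elim

lemma half_lim {L : ℕ → Set Cl} {r : ℕ → Pt → Pt → Prop} {s : Fin 3} (hL : Monotone L)
    (hr : Monotone r) (h : ∀ n, Half (L n) s (r n)) :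
    Half {c | ∃ n, c ∈ L n} s (fun u v => ∃ n, r n u v) := by
  refine ⟨fun u v ⟨n, e⟩ => (h n).sort u v e, fun u v v' ⟨n, e⟩ ⟨m, e'⟩ =>
    (h (max n m)).fn u v v' (hr (le_max_left _ _) _ _ e) (hr (le_max_right _ _) _ _ e'), ?_⟩
  rintro c ⟨n, hc⟩ i j ij u v ⟨a, ha⟩ ⟨b, hb⟩
  obtain ⟨d, hd, m⟩ := (h (n + a + b)).cl c (hL (by omega) hc) i j ij u v
    (hr (by omega : a ≤ n + a + b) _ _ ha) (hr (by omega : b ≤ n + a + b) _ _ hb)
  exact ⟨d, ⟨_, hd⟩, m.mono fun u v e => ⟨_, e⟩⟩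

lemma auto {m : ℕ → ℕ → ℕ} {s : Fin 3} {r : Pt → Pt → Prop} (fw : Half (Cells m) s r)
    (bw : Half (Cells m) (-s) (flip r)) (dom : ∀ u, ∃ v, r u v) (ran : ∀ v, ∃ u, r u v) :
    ∃ φ, IsAutopara m φ ∧ ∀ c d, Maps s r c d → φ c = d := by
  have : ∀ i a, ∃ b, r (i, a) (i + s, b) := fun i a => by
    obtain ⟨v, hv⟩ := dom (i, a)
    exact ⟨v.2, by rw [← fw.sort _ _ hv]; exact hv⟩
  choose f hf using this
  have bij : ∀ i, Function.Bijective (f i) := fun i => by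
    refine ⟨fun a b e => ?_, fun b => ?_⟩
    · exact congrArg Prod.snd (bw.fn _ _ _ (hf i a) (e ▸ hf i b))
    · obtain ⟨⟨j, a⟩, hu⟩ := ran (i + s, b)
      obtain rfl : i = j := add_right_cancel (fw.sort _ _ hu)
      exact ⟨a, congrArg Prod.snd (fw.fn _ _ _ (hf i a) hu)⟩
  have k : ∀ c d, Maps s r c d → (fun l => f (l - s) (c (l - s))) = d := fun c d h =>
    funext fun l => by
      simpa using congrArg Prod.snd (fw.fn _ _ _ (hf (l - s) _) (h (l - s)))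
  refine ⟨fun c l => f (l - s) (c (l - s)), ⟨⟨Equiv.addRight s,
    fun i => Equiv.ofBijective _ (bij i), fun c i => by simp⟩, ?_⟩, k⟩
  apply Set.Subset.antisymm
  · rintro _ ⟨c, hc, rfl⟩
    obtain ⟨d, hd, h⟩ := fw.cl c hc 0 1 (by decide) _ _ (hf 0 _) (hf 1 _)
    beta_reduce
    rwa [k c d h]
  · intro d hd
    obtain ⟨u, hu⟩ := ran (0, d 0)
    obtain ⟨v, hv⟩ := ran (1, d 1)
    obtain ⟨c, hc, h⟩ := bw.cl d hd 0 1 (by decide) _ _ hu hv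
    exact ⟨c, hc, k c d h.unflip⟩

theorem main : ∃ m : ℕ → ℕ → ℕ, IsQuasigroup m ∧ (∀ c ∈ L0, c ∈ Cells m) ∧ IsPrimitive m := by
  obtain ⟨sq, mono, s0, hD⟩ := generic
    (ι := (Fin 3 × ℕ × ℕ) ⊕ (Ix × Pt) ⊕ (Ix × Pt) ⊕ (Fin 4 → Cl) ⊕ (Fin 4 → Cl)) p0
    (Sum.elim (fun x q => ∃ c ∈ q.L, c (x.1 + 1) = x.2.1 ∧ c (x.1 + 2) = x.2.2)
      (Sum.elim (fun x q => ∃ v, q.R x.1 x.2 v) (Sum.elim (fun x q => ∃ u, q.R x.1 u x.2)
      (Sum.elim (fun x => G x fun q => x 0 ≠ x 1 → WQ q (x 0) (x 1))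
      (fun x => G x fun q => (∀ i, x 0 i ≠ x 1 i) → WP q (x 0) (x 1) (x 2) (x 3)))))) (by
    rintro (x | x | x | x | x) p
    · exact d_cell p _ _ _
    · exact d_dom p _ _
    · exact d_ran p _ _
    · refine guard x _ (fun p h => ?_) p
      by_cases e : x 0 = x 1
      · exact ⟨p, le_rfl, fun e' => absurd e e'⟩
      · obtain ⟨q, a, b⟩ := d_Q p (h 0) (h 1) e
        exact ⟨q, a, fun _ => b⟩
    · refine guard x _ (fun p h => ?_) p
      by_cases e : ∀ i, x 0 i ≠ x 1 i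
      · obtain ⟨q, a, b⟩ := d_P p (h 0) (h 1) (h 2) (h 3) e
        exact ⟨q, a, fun _ => b⟩
      · exact ⟨p, le_rfl, fun e' => absurd e' e⟩)
  have hD1 := fun x => hD (Sum.inl x)
  have hD2 := fun x => hD (Sum.inr (Sum.inl x))
  have hD3 := fun x => hD (Sum.inr (Sum.inr (Sum.inl x)))
  have hD4 := fun x => hD (Sum.inr (Sum.inr (Sum.inr (Sum.inl x))))
  have hD5 := fun x => hD (Sum.inr (Sum.inr (Sum.inr (Sum.inr x))))
  simp only [Sum.elim_inr, Sum.elim_inl] at hD1 hD2 hD3 hD4 hD5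
  clear hD
  have mL : Monotone fun n => (sq n).L := fun a b e => (mono e).L
  have mR : ∀ k, Monotone fun n => (sq n).R k := fun k a b e => (mono e).R k
  set L : Set Cl := {c | ∃ n, c ∈ (sq n).L} with hL
  have lat : ∀ c ∈ L, ∀ d ∈ L, ∀ i j, i ≠ j → c i = d i → c j = d j → c = d := by
    rintro c ⟨n, hc⟩ d ⟨k, hd⟩
    exact (sq (max n k)).st.lat c (mL (le_max_left _ _) hc) d (mL (le_max_right _ _) hd)
  have has : ∀ l a b, ∃ c ∈ L, c (l + 1) = a ∧ c (l + 2) = b := fun l a b => by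
    obtain ⟨n, c, hc, e⟩ := hD1 (l, a, b)
    exact ⟨c, ⟨n, hc⟩, e⟩
  choose F hF hF1 hF2 using has 2
  have cells : Cells (fun a b => F a b 2) = L := by
    ext c
    constructor
    · intro h
      have : c = F (c 0) (c 1) := funext fun i => by
        fin_cases i
        exacts [(hF1 _ _).symm, (hF2 _ _).symm, h]
      exact this ▸ hF _ _
    · intro h
      exact congrFun (lat c h _ (hF (c 0) (c 1)) 0 1 (by decide) (hF1 _ _).symm (hF2 _ _).symm) 2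
  have aut : ∀ k : Ix, ∃ φ, IsAutopara (fun a b => F a b 2) φ ∧
      ∀ n c d, Maps k.2 ((sq n).R k) c d → φ c = d := fun k => by
    obtain ⟨φ, a, b⟩ := auto (m := fun a b => F a b 2) (s := k.2)
      (r := fun u v => ∃ n, (sq n).R k u v)
      (cells ▸ half_lim mL (mR k) fun n => ((sq n).pi k).fw)
      (cells ▸ half_lim (r := fun n => flip ((sq n).R k)) mL (fun a b e u v => mR k e v u)
        fun n => ((sq n).pi k).bw)
      (fun u => by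
        obtain ⟨n, v, e⟩ := hD2 (k, u)
        exact ⟨v, n, e⟩)
      (fun v => by
        obtain ⟨n, u, e⟩ := hD3 (k, v)
        exact ⟨u, n, e⟩)
    exact ⟨φ, a, fun n c d h => b c d (h.mono fun u v e => ⟨n, e⟩)⟩
  choose φ hφ hφ' using aut
  have ung : ∀ cs W n, G cs W (sq n) → (∀ a, cs a ∈ L) → W (sq n) := fun cs W n g h =>
    g.2 fun a => by
      obtain ⟨k, hk⟩ := h a
      exact (mono (le_max_left n k)).old _ (mL (le_max_right n k) hk) (g.1 a)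
  have Q : ∀ c ∈ L, ∀ d ∈ L, c ≠ d → ∃ k, φ k c = c ∧ φ k d ∈ L ∧ ∀ i, d i ≠ φ k d i := by
    intro c hc d hd cd
    obtain ⟨n, g⟩ := hD4 ![c, d, c, c]
    obtain ⟨k, d', hd', a, b, e⟩ := ung _ _ n g (fun a => by fin_cases a <;> assumption) cd
    have := hφ' k n d d' b
    exact ⟨k, hφ' k n c c a, this ▸ ⟨n, hd'⟩, this ▸ e⟩
  have P : ∀ c ∈ L, ∀ d ∈ L, ∀ e ∈ L, ∀ f ∈ L, (∀ i, c i ≠ d i) → ∃ k1 k2 k3, ∃ c' ∈ L, ∃ h ∈ L,
      φ k1 d = d ∧ φ k1 c = c' ∧ φ k2 c = e ∧ φ k2 c' = h ∧ φ k3 c = f ∧ φ k3 c' = h := by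
    intro c hc d hd e he f hf cd
    obtain ⟨n, g⟩ := hD5 ![c, d, e, f]
    obtain ⟨k1, k2, k3, c', hc', h, hh, a1, a2, a3, a4, a5, a6⟩ :=
      ung _ _ n g (fun a => by fin_cases a <;> assumption) cd
    exact ⟨k1, k2, k3, c', ⟨n, hc'⟩, h, ⟨n, hh⟩, hφ' _ n _ _ a1, hφ' _ n _ _ a2, hφ' _ n _ _ a3,
      hφ' _ n _ _ a4, hφ' _ n _ _ a5, hφ' _ n _ _ a6⟩
  refine ⟨fun a b => F a b 2, fun a b => ⟨?_, ?_⟩, fun c hc => cells ▸ ⟨0, s0 ▸ hc⟩, ?_, ?_⟩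
  · obtain ⟨c, hc, e1, e2⟩ := has 1 b a
    have hc' : c ∈ Cells fun a b => F a b 2 := cells ▸ hc
    refine ⟨c 1, by rw [← e1, ← e2]; exact hc'.symm, fun y hy => ?_⟩
    rw [← lat _ (hF a y) c hc 0 2 (by decide) ((hF1 _ _).trans e2.symm) (hy.trans e1.symm)]
    exact (hF2 _ _).symm
  · obtain ⟨c, hc, e1, e2⟩ := has 0 a b
    have hc' : c ∈ Cells fun a b => F a b 2 := cells ▸ hc
    refine ⟨c 0, by rw [← e1, ← e2]; exact hc'.symm, fun y hy => ?_⟩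
    rw [← lat _ (hF y a) c hc 1 2 (by decide) ((hF2 _ _).trans e1.symm) (hy.trans e2.symm)]
    exact (hF1 _ _).symm
  · rw [cells]
    intro c hc e he
    have ne : F (c 0 + 1) 0 ≠ c := fun h => by
      have := hF1 (c 0 + 1) 0
      rw [h] at this
      exact absurd this (by simp)
    obtain ⟨k, -, hd, cd⟩ := Q _ (hF _ _) c hc ne
    obtain ⟨-, k2, -, -, -, -, -, -, -, h, -⟩ := P c hc _ hd e he e he cd
    exact ⟨φ k2, hφ k2, h⟩
  · intro r hr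
    rw [or_iff_not_imp_left]
    intro hb
    obtain ⟨c, d, cd, ne⟩ : ∃ c d, r c d ∧ c ≠ d := by
      by_contra hn
      push Not at hn
      exact hb (le_bot_iff.1 fun c d h => hn c d h)
    have mem : ∀ c : Cells fun a b => F a b 2, c.1 ∈ L := fun c => cells ▸ c.2
    obtain ⟨k, a, hd, dd⟩ := Q c (mem c) d (mem d) fun e => ne (Subtype.ext e)
    have h1 : r d ⟨φ k d, cells.ge hd⟩ := r.trans (r.symm cd) (hr _ (hφ k) c d c _ a rfl cd)
    refine top_unique fun e f _ => ?_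
    obtain ⟨k1, k2, k3, c', hc', h, hh, a1, a2, a3, a4, a5, a6⟩ :=
      P d (mem d) _ hd e (mem e) f (mem f) dd
    have h2 : r d ⟨c', cells.ge hc'⟩ :=
      r.trans h1 (r.symm (hr _ (hφ k1) d _ ⟨c', cells.ge hc'⟩ _ a2 a1 h1))
    exact r.trans (hr _ (hφ k2) _ _ e ⟨h, cells.ge hh⟩ a3 a4 h2)
      (r.symm (hr _ (hφ k3) _ _ f ⟨h, cells.ge hh⟩ a5 a6 h2))

lemma not_group {m : ℕ → ℕ → ℕ} (h : ∀ c ∈ L0, c ∈ Cells m) (G : Type) [Group G] :
    ¬ Isotopic m (fun x y : G => x * y) := by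
  rintro ⟨α, β, γ, e⟩
  have k : ∀ a b c, ![a, b, c] ∈ L0 → γ c = α a * β b := fun a b c hc => by
    exact (congrArg γ (h _ hc)).trans (e a b)
  have h1 := (k 0 0 0 (by decide)).symm.trans (k 1 1 0 (by decide))
  have h2 := (k 0 1 1 (by decide)).symm.trans (k 1 0 1 (by decide))
  have h3 := (k 0 2 2 (by decide)).symm.trans (k 1 3 2 (by decide))
  have h4 : γ 3 = γ 4 := by
    rw [k 0 3 3 (by decide), k 1 2 4 (by decide)]
    have a1 : β 1 = (α 1)⁻¹ * α 0 * β 0 := by rw [mul_assoc, h1]; simp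
    have a3 : β 3 = (α 1)⁻¹ * α 0 * β 2 := by rw [mul_assoc, h3]; simp
    rw [a1, ← mul_assoc] at h2
    rw [a3, ← mul_assoc, mul_right_cancel h2]
  exact absurd (γ.injective h4) (by decide)

end Pool.Agent.H.MP_b62fd5_al
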